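import Pool.Agent.Y692.FK.Inherit
import Pool.Agent.Y226.FK.Chain

/-!
# The determinants over the quotients of `K × H₃(ℤ)`
-/

set_option autoImplicit false

open Pool.Agent.Helper993.FK Pool.Agent.Helper993.HeisDet Pool.Agent.Y692.FKI Pool.Agent.Y226.FK
open Filter Topology

namespace Pool.Agent.Y692.FKP

/-- the element `1 + N t - N u t` of the group ring of `H₃(ℤ)` -/
noncomputable def mt (N : ℕ) : Matrix (Fin 1) (Fin 1) (MonoidAlgebra ℚ (Heis ℤ)) :=
  Matrix.of fun _ _ => elt ℚ (N : ℚ)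

theorem coeff_cast (C : Subgroup (Heis ℤ)) [C.Normal] (N : ℕ) (x : Heis ℤ ⧸ C) :
    (((MonoidAlgebra.mapDomain (QuotientGroup.mk' C) (elt ℚ (N : ℚ))).coeff x : ℚ) : ℂ)
      = (MonoidAlgebra.mapDomain (QuotientGroup.mk' C) (elt ℂ (N : ℂ))).coeff x := by
  rw [elt_coeff, elt_coeff]
  split_ifs <;> norm_num

/-- the determinant over a finite quotient of `H₃(ℤ)` -/
theorem fkDet_quot (C : Subgroup (Heis ℤ)) [C.Normal] [Finite (Heis ℤ ⧸ C)] (N : ℕ) (d : ℂ)
    (hd : d ≠ 0) (h : ∀ [Fintype (Heis ℤ ⧸ C)] [DecidableEq (Heis ℤ ⧸ C)],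
      (gmat (MonoidAlgebra.mapDomain (QuotientGroup.mk' C) (elt ℂ (N : ℂ)))).det = d) :
    fkDet (rMul ((mt N).map (MonoidAlgebra.mapDomain (QuotientGroup.mk' C))))
      = Real.exp (Real.log ‖d‖ / (Nat.card (Heis ℤ ⧸ C) : ℝ)) := by
  classical
  have : Fintype (Heis ℤ ⧸ C) := Fintype.ofFinite _
  have h1 : ((mt N).map (MonoidAlgebra.mapDomain (QuotientGroup.mk' C)))
      = Matrix.of fun _ _ =>
        MonoidAlgebra.mapDomain (QuotientGroup.mk' C) (elt ℚ (N : ℚ)) := rfl
  have h2 : (Matrix.of fun x y : Heis ℤ ⧸ C =>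
      (((MonoidAlgebra.mapDomain (QuotientGroup.mk' C) (elt ℚ (N : ℚ))).coeff (x⁻¹ * y) : ℚ)
        : ℂ)).det = d := by
    rw [← h]
    congr 1
    ext x y
    simp only [Matrix.of_apply, gmat, coeff_cast]
  rw [h1, fkDet_finite _ (by rw [h2]; exact hd), h2]

theorem fkDet_ch (s : Sq) {N : ℕ} (hN : 2 ≤ N) (i : ℕ) :
    fkDet (rMul ((mt N).map (MonoidAlgebra.mapDomain (QuotientGroup.mk' (ch s i)))))
      = Real.exp (Real.log ‖D (s.k i) (s.k i) (s.k i) (N : ℂ)‖ / ((s.k i : ℕ) : ℝ) ^ 3) := by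
  have hne : D (s.k i) (s.k i) (s.k i) (N : ℂ) ≠ 0 := by
    intro h
    have := D_norm_ge_one (n := s.k i) (k := s.k i) (s.odd i) hN
    rw [h, norm_zero] at this
    linarith
  rw [fkDet_quot (ch s i) N _ hne (det_ch s N i), ch_card]
  congr 2
  push_cast
  ring

theorem fkDet_chain (i : ℕ) :
    fkDet (rMul ((mt 10).map (MonoidAlgebra.mapDomain (QuotientGroup.mk' (chain i)))))
      = Real.exp (Real.log ‖Dseq i‖ / (Nat.card (Heis ℤ ⧸ chain i) : ℝ)) := by
  have hne : Dseq i ≠ 0 := by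
    intro h
    have := Dseq_norm_ge i
    rw [h, norm_zero] at this
    linarith
  exact fkDet_quot (chain i) 10 _ hne (det_chain i)

/-- every number in `(1, N]` is a limit of determinants -/
theorem exists_limit {N : ℕ} (hN : 2 ≤ N) {x : ℝ} (hx1 : 1 < x) (hxN : x ≤ N) :
    ∃ s : Sq, Tendsto (fun i => fkDet (rMul ((mt N).map
      (MonoidAlgebra.mapDomain (QuotientGroup.mk' (ch s i)))))) atTop (𝓝 x) := by
  have hN0 : (0 : ℝ) < N := by linarith
  have hlog : 0 < Real.log N := Real.log_pos (by linarith)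
  set P : ℝ := 1 - Real.log x / Real.log N with hP
  have hP0 : 0 ≤ P := by
    rw [hP, sub_nonneg, div_le_one hlog]
    exact Real.log_le_log (by linarith) hxN
  have hP1 : P < 1 := by
    have : 0 < Real.log x / Real.log N := div_pos (Real.log_pos hx1) hlog
    rw [hP]; linarith
  obtain ⟨k, h0, hpos, hodd, hdvd, h3, hcard, hmono, hlim⟩ := exists_seq P hP0 hP1
  let s : Sq := ⟨k, h0, hpos, hodd, hdvd, hmono⟩
  refine ⟨s, ?_⟩
  have h4 := tendsto_log_D hodd h3 hcard hlim hN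
  have h5 : (1 - P) * Real.log N = Real.log x := by
    rw [hP]
    field_simp
    ring
  rw [h5] at h4
  have h6 := (Real.continuous_exp.tendsto _).comp h4
  rw [Real.exp_log (by linarith)] at h6
  refine h6.congr fun i => ?_
  rw [fkDet_ch s hN]
  rfl

/-- the determinants over the chain of the starting file do not converge -/
theorem no_limit_chain (L : ℝ) : ¬ Tendsto (fun i => fkDet (rMul ((mt 10).map
      (MonoidAlgebra.mapDomain (QuotientGroup.mk' (chain i)))))) atTop (𝓝 L) := by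
  intro h1
  simp only [fkDet_chain] at h1
  have hpos : 0 < L := by
    have h2 : ∀ i, (1 : ℝ) ≤ Real.exp (Real.log ‖Dseq i‖ / (Nat.card (Heis ℤ ⧸ chain i) : ℝ)) := by
      intro i
      apply Real.one_le_exp
      exact div_nonneg (Real.log_nonneg (Dseq_norm_ge i)) (Nat.cast_nonneg _)
    exact lt_of_lt_of_le one_pos (ge_of_tendsto' h1 h2)
  have h3 := (Real.continuousAt_log hpos.ne').tendsto.comp h1
  simp only [Function.comp_def, Real.log_exp] at h3
  exact no_limit _ h3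

/-- `H₃(ℤ)` does not have property (FK-approx) -/
theorem not_heis : ¬ FKApprox (Heis ℤ) := by
  intro h
  have h1 := h chain chain_zero chain_anti chain_inf 1 1 le_rfl le_rfl (mt 10)
  exact no_limit_chain _ h1

end Pool.Agent.Y692.FKP
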