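import Pool.Agent.Helper993.Compare
import Pool.Agent.Y226.FK.Chain

/-!
# The torsion of the covers of the two complexes along the congruence chains
-/

open scoped Topology

noncomputable section

namespace Pool.Agent.Y692.FKC

open Pool.Agent.Helper993.HeisDet Pool.Agent.Helper993.SP Pool.Agent.Helper993.Delta
  Pool.Agent.Helper993.FK Pool.Agent.Helper993.LT Pool.Agent.Helper993.Tors
  Pool.Agent.Helper993.Cov Pool.Agent.Y226.FK
open Pool.Agent.Helper993.Cpx hiding Fk NN labQ_eq DQ_eq DQ0 DQ1 DQ2 tors0 tors1 tors2 tors3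
  Fk_aR det_cast index_aR Fk_one relIndex_b d3_le d3_ker tors2_compare tors2_ne index_NN
  torsionSum_eq torsionSum_diff

/-- the determinant over the quotient -/
def DD (s : Sq) (k : ℕ) : ℂ := D (s.k k) (s.k k) (s.k k) ((10 : ℕ) : ℂ)

theorem DD_norm_ge (s : Sq) (k : ℕ) : 1 ≤ ‖DD s k‖ :=
  D_norm_ge_one (n := s.k k) (k := s.k k) (s.odd k) (by norm_num)

theorem DD_ne (s : Sq) (k : ℕ) : DD s k ≠ 0 := by
  intro h
  have := DD_norm_ge s k
  rw [h, norm_zero] at this
  linarith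

theorem det_DD (s : Sq) (k : ℕ) [Fintype (Heis ℤ ⧸ ch s k)] [DecidableEq (Heis ℤ ⧸ ch s k)] :
    (gmat (MonoidAlgebra.mapDomain (QuotientGroup.mk' (ch s k)) (elt ℂ ((10 : ℕ) : ℂ)))).det
      = DD s k :=
  det_ch s 10 k

/-- the ring homomorphism to the group ring of the quotient -/
def Fk (s : Sq) (k : ℕ) : MonoidAlgebra ℤ (Heis ℤ) →+* MonoidAlgebra ℤ (Heis ℤ ⧸ ch s k) :=
  MonoidAlgebra.mapDomainRingHom ℤ (QuotientGroup.mk' (ch s k))

/-- the subgroups -/
abbrev NN (b : Bool) (s : Sq) (k : ℕ) : Subgroup (cpx b).pi1 := (pull (phi b) s).sub k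

theorem labQ_eq (b : Bool) (s : Sq) (k : ℕ) (e : Fin 9) :
    labQ (cpx b) (NN b s k) (quotE (phi b) s k) e = QuotientGroup.mk' (ch s k) (labH e) := by
  change (QuotientGroup.mk (phi b (cl b e)) : Heis ℤ ⧸ ch s k) = _
  have h : phi b (cl b e) = labH e := bwd_cl b e
  rw [h]
  rfl

theorem DQ_eq (b : Bool) (s : Sq) (k n : ℕ) : DQ (cpx b) (NN b s k) (quotE (phi b) s k) n
    = (toM (bdR (cpx b) (labX b) n)).map (Fk s k) := by
  unfold Fk DQ
  rw [toM_bdR_map]
  have h : labQ (cpx b) (NN b s k) (quotE (phi b) s k)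
      = fun e => QuotientGroup.mk' (ch s k) (labX b e) := funext (labQ_eq b s k)
  rw [h]

theorem DQ0 (b : Bool) (s : Sq) (k : ℕ) : DQ (cpx b) (NN b s k) (quotE (phi b) s k) 0
    = (toM (d1 false)).map (Fk s k) := by
  rw [← same1 b]
  exact DQ_eq b s k 0

theorem DQ1 (b : Bool) (s : Sq) (k : ℕ) : DQ (cpx b) (NN b s k) (quotE (phi b) s k) 1
    = (toM (d2 false)).map (Fk s k) := by
  rw [← same2 b]
  exact DQ_eq b s k 1

theorem DQ2 (b : Bool) (s : Sq) (k : ℕ) : DQ (cpx b) (NN b s k) (quotE (phi b) s k) 2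
    = (toM (d3 b)).map (Fk s k) :=
  DQ_eq b s k 2

theorem tors0 (b : Bool) (s : Sq) (k : ℕ) : ((cpx b).cover (NN b s k)).torsionOrder 0
    = tO ⊤ (LinearMap.range (vm ((toM (d1 false)).map (Fk s k)))) := by
  rw [torsionOrder_eq _ _ (quotE (phi b) s k)]
  change tO ⊤ (LinearMap.range (vm (DQ (cpx b) (NN b s k) (quotE (phi b) s k) 0))) = _
  rw [DQ0]
  rfl

theorem tors1 (b : Bool) (s : Sq) (k : ℕ) : ((cpx b).cover (NN b s k)).torsionOrder 1
    = tO (LinearMap.ker (vm ((toM (d1 false)).map (Fk s k))))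
      (LinearMap.range (vm ((toM (d2 false)).map (Fk s k)))) := by
  rw [torsionOrder_eq _ _ (quotE (phi b) s k)]
  change tO (LinearMap.ker (vm (DQ (cpx b) (NN b s k) (quotE (phi b) s k) 0)))
    (LinearMap.range (vm (DQ (cpx b) (NN b s k) (quotE (phi b) s k) 1))) = _
  rw [DQ0, DQ1]
  rfl

theorem tors2 (b : Bool) (s : Sq) (k : ℕ) : ((cpx b).cover (NN b s k)).torsionOrder 2
    = tO (LinearMap.ker (vm ((toM (d2 false)).map (Fk s k))))
      (LinearMap.range (vm ((toM (d3 b)).map (Fk s k)))) := by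
  rw [torsionOrder_eq _ _ (quotE (phi b) s k)]
  change tO (LinearMap.ker (vm (DQ (cpx b) (NN b s k) (quotE (phi b) s k) 1)))
    (LinearMap.range (vm (DQ (cpx b) (NN b s k) (quotE (phi b) s k) 2))) = _
  rw [DQ1, DQ2]
  rfl

theorem tors3 (b : Bool) (s : Sq) (k : ℕ) : ((cpx b).cover (NN b s k)).torsionOrder 3 = 1 := by
  rw [torsionOrder_eq _ _ (quotE (phi b) s k)]
  have h : LinearMap.range (vm (DQ (cpx b) (NN b s k) (quotE (phi b) s k) 3)) = ⊥ := by
    rw [LinearMap.range_eq_bot]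
    refine LinearMap.ext fun w => ?_
    have : w = 0 := by
      funext i
      exact Fin.elim0 (show Fin 0 from i)
    rw [this, map_zero, map_zero]
  rw [h]
  exact tO_bot _

theorem Fk_aR (s : Sq) (k : ℕ) : (toM aR).map (Fk s k)
    = Matrix.of fun _ _ => MonoidAlgebra.mapDomain (QuotientGroup.mk' (ch s k)) (elt ℤ 10) := by
  rw [toM_aR]
  rfl

theorem det_cast (s : Sq) (k : ℕ) [Fintype (Heis ℤ ⧸ ch s k)] [DecidableEq (Heis ℤ ⧸ ch s k)] :
    (((gmat (MonoidAlgebra.mapDomain (QuotientGroup.mk' (ch s k)) (elt ℤ 10))).det : ℤ) : ℂ)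
      = DD s k := by
  rw [← det_DD s k]
  have h := RingHom.map_det (Int.castRingHom ℂ)
    (gmat (MonoidAlgebra.mapDomain (QuotientGroup.mk' (ch s k)) (elt ℤ 10)))
  rw [eq_intCast] at h
  rw [h]
  congr 1
  ext x y
  change ((MonoidAlgebra.coeff (MonoidAlgebra.mapDomain (QuotientGroup.mk' (ch s k)) (elt ℤ 10))
    (x⁻¹ * y) : ℤ) : ℂ) = MonoidAlgebra.coeff _ (x⁻¹ * y)
  rw [elt_coeff, elt_coeff]
  split_ifs <;> norm_num

theorem index_aR (s : Sq) (k : ℕ) : ((rg ((toM aR).map (Fk s k))).index : ℝ) = ‖DD s k‖ := by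
  classical
  have : Fintype (Heis ℤ ⧸ ch s k) := Fintype.ofFinite _
  have h := det_cast s k
  rw [Fk_aR, index_rg]
  · rw [← h, Complex.norm_intCast, Nat.cast_natAbs]
    push_cast
    rfl
  · intro h0
    rw [h0] at h
    exact DD_ne s k (by rw [← h]; simp)

theorem Fk_one (s : Sq) (k r : ℕ) :
    (1 : Matrix (Fin r) (Fin r) (MonoidAlgebra ℤ (Heis ℤ))).map (Fk s k) = 1 :=
  Matrix.map_one _ (map_zero _) (map_one _)

theorem relIndex_b (s : Sq) (k : ℕ) : (rg ((toM (d3 true)).map (Fk s k))).relIndex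
    (rg ((toM (d3 false)).map (Fk s k))) = (rg ((toM aR).map (Fk s k))).index := by
  rw [← I4, Matrix.map_mul]
  refine relIndex_rg _ _ ((toM pR).map (Fk s k)) ((toM cM).map (Fk s k)) ((toM eM).map (Fk s k))
    ((toM rR).map (Fk s k)) ((toM wR).map (Fk s k)) _ ?_ ?_ ?_ ?_ ?_ ?_
  · rw [← Matrix.map_mul, I5]
  · rw [← Matrix.map_mul, ← Matrix.map_mul, T1]
  · rw [← Matrix.map_mul, T3]
  · rw [← Matrix.map_mul, ← Matrix.map_mul, T6]
  · rw [← Matrix.map_mul, ← Matrix.map_add _ (map_add _), T5, toM_oR, Fk_one]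
  · rw [← Matrix.map_mul, T7, toM_oR, Fk_one]

theorem d3_le (s : Sq) (k : ℕ) : LinearMap.range (vm ((toM (d3 true)).map (Fk s k)))
    ≤ LinearMap.range (vm ((toM (d3 false)).map (Fk s k))) := by
  rw [← I4, Matrix.map_mul]
  rintro _ ⟨w, rfl⟩
  rw [vm_mul]
  exact ⟨_, rfl⟩

theorem toM_nil {r s : ℕ} : toM (fun _ : Fin r => ([] : Row s (Heis ℤ))) = 0 := rfl

theorem d3_ker (s : Sq) (k : ℕ) : LinearMap.range (vm ((toM (d3 false)).map (Fk s k)))
    ≤ LinearMap.ker (vm ((toM (d2 false)).map (Fk s k))) := by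
  rintro _ ⟨w, rfl⟩
  rw [LinearMap.mem_ker, ← vm_mul, ← Matrix.map_mul, I7, toM_nil, Matrix.map_zero _ (map_zero _)]
  exact Matrix.vecMul_zero w

theorem tors2_compare (s : Sq) (k : ℕ) : ((cpx true).cover (NN true s k)).torsionOrder 2
    = (rg ((toM aR).map (Fk s k))).index * ((cpx false).cover (NN false s k)).torsionOrder 2 := by
  rw [tors2, tors2, ← relIndex_b]
  refine tO_mul (d3_le s k) (d3_ker s k) ?_
  have h := index_aR s k
  have h2 := relIndex_b s k
  intro h0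
  change (rg ((toM (d3 true)).map (Fk s k))).relIndex (rg ((toM (d3 false)).map (Fk s k))) = 0 at h0
  rw [← h2, h0, Nat.cast_zero] at h
  have h3 := DD_norm_ge s k
  rw [← h] at h3
  linarith

theorem tors2_ne (s : Sq) (k : ℕ) : ((cpx false).cover (NN false s k)).torsionOrder 2 ≠ 0 := by
  rw [tors2]
  exact tO_ne_zero _ _

theorem index_NN (b : Bool) (s : Sq) (k : ℕ) : (NN b s k).index = Nat.card (Heis ℤ ⧸ ch s k) := by
  rw [← Subgroup.index_eq_card]
  exact Subgroup.index_comap_of_surjective _ (f := (phi b).toMonoidHom) (phi b).surjective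

theorem torsionSum_eq (b : Bool) (s : Sq) (k : ℕ) : (cpx b).torsionSum (NN b s k)
    = (Real.log (((cpx b).cover (NN b s k)).torsionOrder 0)
      - Real.log (((cpx b).cover (NN b s k)).torsionOrder 1)
      + Real.log (((cpx b).cover (NN b s k)).torsionOrder 2)) / Nat.card (Heis ℤ ⧸ ch s k) := by
  unfold OneVertex.torsionSum
  change ∑ n ∈ Finset.range (3 + 1), _ = _
  rw [Finset.sum_range_succ, Finset.sum_range_succ, Finset.sum_range_succ, Finset.sum_range_one,
    tors3, index_NN]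
  simp only [Nat.cast_one, Real.log_one]
  ring

theorem torsionSum_diff (s : Sq) (k : ℕ) :
    (cpx true).torsionSum (NN true s k) - (cpx false).torsionSum (NN false s k)
      = Real.log ‖DD s k‖ / Nat.card (Heis ℤ ⧸ ch s k) := by
  rw [torsionSum_eq, torsionSum_eq, tors0 true, tors0 false, tors1 true, tors1 false,
    tors2_compare, Nat.cast_mul, index_aR, Real.log_mul]
  · ring
  · have := DD_norm_ge s k
    intro h
    rw [h] at this
    linarith
  · exact_mod_cast tors2_ne s k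


end Pool.Agent.Y692.FKC
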