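import Pool.Agent.Helper993.RMul

/-!
# The Fuglede-Kadison determinant and inclusions of groups

Main result: `fkDet_map`: if `ι : P → Q` is an injective homomorphism of groups, then a matrix over
`ℚ[P]` and its image over `ℚ[Q]` have the same Fuglede-Kadison determinant.
-/

set_option autoImplicit false

open scoped InnerProductSpace Topology CompactlySupported InnerProduct

open Pool.Agent.Helper993.FK Polynomial

noncomputable section

namespace Pool.Agent.Y692.FKI

section
variable {P Q : Type} [Group P] [Group Q] (ι : P →* Q) (hι : Function.Injective ι) {r s t : ℕ}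

/-- the restriction of a function on `Q` to `P` -/
def resFun (x : L2Pow Q r) (p : Fin r × P) : ℂ := coord x p.1 (ι p.2)

include hι in
theorem pair_inj : Function.Injective (fun p : Fin r × P => ((p.1, ι p.2) : Fin r × Q)) := by
  intro a b hab
  have h1 := (Prod.mk.inj hab).1
  have h2 := hι (Prod.mk.inj hab).2
  exact Prod.ext h1 h2

include hι in
theorem resFun_summable (x : L2Pow Q r) :
    Summable (fun p : Fin r × P => ‖resFun ι x p‖ ^ ((2 : ENNReal).toReal)) := by
  have h2 := (coord_summable x).comp_injective (pair_inj (r := r) ι hι)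
  simpa only [Function.comp_def, resFun] using h2

include hι in
theorem resFun_mem (x : L2Pow Q r) : Memℓp (fun p : Fin r × P => resFun ι x p) 2 :=
  memℓp_gen (resFun_summable ι hι x)

/-- restriction, as a linear map -/
def resₗ : L2Pow Q r →ₗ[ℂ] L2Pow P r where
  toFun x := (⟨resFun ι x, resFun_mem ι hι x⟩ : lp (fun _ : Fin r × P => ℂ) 2)
  map_add' x y := by
    apply lp.ext
    funext p
    rfl
  map_smul' c x := by
    apply lp.ext
    funext p
    rfl

theorem res_bound (x : L2Pow Q r) : ‖(resₗ ι hι : L2Pow Q r →ₗ[ℂ] L2Pow P r) x‖ ≤ 1 * ‖x‖ := by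
  rw [one_mul]
  apply norm_le_of _ (norm_nonneg _)
  rw [norm_rpow_eq x]
  change ∑' p : Fin r × P, ‖coord x p.1 (ι p.2)‖ ^ ((2 : ENNReal).toReal)
    ≤ ∑' p : Fin r × Q, ‖coord x p.1 p.2‖ ^ ((2 : ENNReal).toReal)
  exact tsum_comp_le_tsum_of_inj (coord_summable x) (fun p => by positivity) (pair_inj ι hι)

/-- restriction, as a bounded operator -/
def res : L2Pow Q r →L[ℂ] L2Pow P r := (resₗ ι hι).mkContinuous 1 (res_bound ι hι)

theorem coord_res (x : L2Pow Q r) (j : Fin r) (p : P) :
    coord (res ι hι x) j p = coord x j (ι p) := rfl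

theorem res_shift (i : Fin r) (j : Fin s) (g : P) (x : L2Pow Q r) :
    res ι hι (shift i j (ι g) x) = shift i j g (res ι hι x) := by
  apply coord_ext
  intro j' p
  rw [coord_res, coord_shift, coord_shift, coord_res, map_mul, map_inv]

theorem res_sc (i : Fin r) (j : Fin s) (a : MonoidAlgebra ℚ P) (x : L2Pow Q r) :
    res ι hι (sc i j (MonoidAlgebra.mapDomain ι a) x) = sc i j a (res ι hι x) := by
  induction a using MonoidAlgebra.induction_linear with
  | zero =>
    rw [MonoidAlgebra.mapDomain_zero, sc_zero, sc_zero, zero_apply,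
      zero_apply, map_zero]
  | add a b h1 h2 =>
    rw [MonoidAlgebra.mapDomain_add, sc_add, sc_add, add_apply,
      add_apply, map_add, h1, h2]
  | single g c =>
    rw [MonoidAlgebra.mapDomain_single, sc_single, sc_single, smul_apply,
      smul_apply, map_smul, res_shift]

theorem res_rMul (A : Matrix (Fin r) (Fin s) (MonoidAlgebra ℚ P)) (x : L2Pow Q r) :
    res ι hι (rMul (A.map (MonoidAlgebra.mapDomain ι)) x) = rMul A (res ι hι x) := by
  rw [rMul_eq_sc, rMul_eq_sc, sum_apply, sum_apply,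
    map_sum]
  refine Finset.sum_congr rfl fun i _ => ?_
  rw [sum_apply, sum_apply, map_sum]
  refine Finset.sum_congr rfl fun j _ => ?_
  rw [Matrix.map_apply, res_sc]

theorem invol_map (a : MonoidAlgebra ℚ P) :
    invol (MonoidAlgebra.mapDomain ι a) = MonoidAlgebra.mapDomain ι (invol a) := by
  unfold invol
  induction a using MonoidAlgebra.induction_linear with
  | zero => simp only [MonoidAlgebra.mapDomain_zero]
  | add a b h1 h2 => simp only [MonoidAlgebra.mapDomain_add, h1, h2]
  | single g c => simp only [MonoidAlgebra.mapDomain_single, map_inv]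

theorem adjQ_map (A : Matrix (Fin r) (Fin s) (MonoidAlgebra ℚ P)) :
    adjQ (A.map (MonoidAlgebra.mapDomain ι)) = (adjQ A).map (MonoidAlgebra.mapDomain ι) := by
  ext1 i j
  exact invol_map ι (A j i)

/-- the positive operator of a matrix -/
def sq {G : Type} [Group G] (A : Matrix (Fin r) (Fin s) (MonoidAlgebra ℚ G)) :
    L2Pow G r →L[ℂ] L2Pow G r :=
  (ContinuousLinearMap.adjoint (rMul A)) ∘L (rMul A)

theorem sq_sa {G : Type} [Group G] (A : Matrix (Fin r) (Fin s) (MonoidAlgebra ℚ G)) :
    IsSelfAdjoint (sq A) := by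
  unfold sq
  rw [ContinuousLinearMap.isSelfAdjoint_iff', ContinuousLinearMap.adjoint_comp,
    ContinuousLinearMap.adjoint_adjoint]

theorem res_sq (A : Matrix (Fin r) (Fin s) (MonoidAlgebra ℚ P)) :
    (res ι hι) ∘L (sq (A.map (MonoidAlgebra.mapDomain ι))) = (sq A) ∘L (res ι hι) := by
  ext1 x
  show res ι hι ((ContinuousLinearMap.adjoint (rMul (A.map (MonoidAlgebra.mapDomain ι))))
    (rMul (A.map (MonoidAlgebra.mapDomain ι)) x)) =
    (ContinuousLinearMap.adjoint (rMul A)) (rMul A (res ι hι x))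
  rw [adjoint_rMul, adjoint_rMul, adjQ_map, res_rMul, res_rMul]

end

/-! ### Functional calculus -/

section
variable {H K : Type} [NormedAddCommGroup H] [InnerProductSpace ℂ H] [CompleteSpace H]
  [NormedAddCommGroup K] [InnerProductSpace ℂ K] [CompleteSpace K]

theorem intertwine_poly (R : H →L[ℂ] K) (S : H →L[ℂ] H) (T : K →L[ℂ] K)
    (h : R ∘L S = T ∘L R) (p : ℝ[X]) : R ∘L (aeval S p) = (aeval T p) ∘L R := by
  induction p using Polynomial.induction_on' with
  | add p q hp hq =>
    rw [map_add, map_add, ContinuousLinearMap.comp_add, ContinuousLinearMap.add_comp, hp, hq]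
  | monomial n c =>
    have hpow : ∀ n : ℕ, R ∘L (S ^ n) = (T ^ n) ∘L R := by
      intro n
      induction n with
      | zero =>
        rw [pow_zero, pow_zero]
        rfl
      | succ n ih =>
        rw [pow_succ', pow_succ']
        calc R ∘L (S * S ^ n) = (R ∘L S) ∘L (S ^ n) := rfl
          _ = (T ∘L R) ∘L (S ^ n) := by rw [h]
          _ = T ∘L (R ∘L (S ^ n)) := rfl
          _ = T ∘L ((T ^ n) ∘L R) := by rw [ih]
          _ = (T * T ^ n) ∘L R := rfl
    rw [aeval_monomial, aeval_monomial]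
    have e1 : ∀ (c : ℝ) (U : H →L[ℂ] H), algebraMap ℝ (H →L[ℂ] H) c * U = c • U := by
      intro c U
      rw [Algebra.smul_def]
    have e2 : ∀ (c : ℝ) (U : K →L[ℂ] K), algebraMap ℝ (K →L[ℂ] K) c * U = c • U := by
      intro c U
      rw [Algebra.smul_def]
    rw [e1, e2]
    have h1 := hpow n
    ext1 x
    have h2 : R ((S ^ n) x) = (T ^ n) (R x) := congrArg (fun L : H →L[ℂ] K => L x) h1
    show R (c • ((S ^ n) x)) = c • ((T ^ n) (R x))
    rw [← h2]
    exact (R : H →ₗ[ℂ] K).map_smul_of_tower c ((S ^ n) x)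

theorem intertwine_cfc (R : H →L[ℂ] K) (hR : ‖R‖ ≤ 1) (S : H →L[ℂ] H) (T : K →L[ℂ] K)
    (hS : IsSelfAdjoint S) (hT : IsSelfAdjoint T) (h : R ∘L S = T ∘L R) (f : ℝ → ℝ)
    (hf : Continuous f) : R ∘L (cfc f S) = (cfc f T) ∘L R := by
  rw [← sub_eq_zero, ← norm_eq_zero]
  apply le_antisymm _ (norm_nonneg _)
  apply le_of_forall_pos_le_add
  intro ε hε
  rw [zero_add]
  obtain ⟨c, hc⟩ : ∃ c : ℝ, c = max ‖S‖ ‖T‖ := ⟨_, rfl⟩
  obtain ⟨p, hp⟩ := exists_polynomial_near_of_continuousOn (-c) c f hf.continuousOn (ε / 2)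
    (by positivity)
  have key : ∀ {E : Type} [NormedAddCommGroup E] [InnerProductSpace ℂ E] [CompleteSpace E]
      (U : E →L[ℂ] E), IsSelfAdjoint U → ‖U‖ ≤ c → ‖cfc f U - aeval U p‖ ≤ ε / 2 := by
    intro E _ _ _ U hU hUc
    rw [← cfc_polynomial p U hU, ← cfc_sub f (fun x => p.eval x) U hf.continuousOn
      p.continuous.continuousOn]
    apply norm_cfc_le (by positivity)
    intro x hx
    have h1 : ‖x‖ ≤ ‖U‖ * ‖(1 : E →L[ℂ] E)‖ := spectrum.norm_le_norm_mul_of_mem hx
    have h2 : ‖(1 : E →L[ℂ] E)‖ ≤ 1 := ContinuousLinearMap.norm_id_le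
    have h3 : |x| ≤ c := by
      have h4 : ‖U‖ * ‖(1 : E →L[ℂ] E)‖ ≤ ‖U‖ * 1 := mul_le_mul_of_nonneg_left h2 (norm_nonneg _)
      rw [Real.norm_eq_abs] at h1
      linarith
    have h5 := hp x (abs_le.1 h3)
    rw [Real.norm_eq_abs, abs_sub_comm]
    exact h5.le
  have hS' := key S hS (by rw [hc]; exact le_max_left _ _)
  have hT' := key T hT (by rw [hc]; exact le_max_right _ _)
  have e : R ∘L (cfc f S) - (cfc f T) ∘L R =
      R ∘L (cfc f S - aeval S p) - (cfc f T - aeval T p) ∘L R := by
    rw [ContinuousLinearMap.comp_sub, ContinuousLinearMap.sub_comp, intertwine_poly R S T h p]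
    abel
  rw [e]
  refine (norm_sub_le _ _).trans ?_
  have n1 := (ContinuousLinearMap.opNorm_comp_le R (cfc f S - aeval S p))
  have n2 := (ContinuousLinearMap.opNorm_comp_le (cfc f T - aeval T p) R)
  have n3 : ‖R‖ * ‖cfc f S - aeval S p‖ ≤ 1 * (ε / 2) :=
    mul_le_mul hR hS' (norm_nonneg _) zero_le_one
  have n4 : ‖cfc f T - aeval T p‖ * ‖R‖ ≤ (ε / 2) * 1 :=
    mul_le_mul hT' hR (norm_nonneg _) (by positivity)
  linarith

end

section
variable {P Q : Type} [Group P] [Group Q] (ι : P →* Q) (hι : Function.Injective ι) {r s : ℕ}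

theorem res_unitVec (i : Fin r) : res ι hι (unitVec i) = unitVec i := by
  classical
  apply coord_ext
  intro j p
  rw [coord_res, coord_unitVec, coord_unitVec]
  have : (ι p = 1) ↔ (p = 1) := by
    rw [← map_one ι]
    exact hι.eq_iff
  simp only [this]

include hι in
theorem coeff_cfc (A : Matrix (Fin r) (Fin s) (MonoidAlgebra ℚ P)) (f : ℝ → ℝ)
    (hf : Continuous f) (i : Fin r) :
    ⟪(unitVec i : L2Pow Q r), cfc f (sq (A.map (MonoidAlgebra.mapDomain ι))) (unitVec i)⟫_ℂ =
      ⟪(unitVec i : L2Pow P r), cfc f (sq A) (unitVec i)⟫_ℂ := by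
  have hR : ‖(res ι hι : L2Pow Q r →L[ℂ] L2Pow P r)‖ ≤ 1 :=
    LinearMap.mkContinuous_norm_le _ zero_le_one _
  have h1 := intertwine_cfc (res ι hι) hR _ _ (sq_sa _) (sq_sa A) (res_sq ι hι A) f hf
  have h2 := congrArg (fun L : L2Pow Q r →L[ℂ] L2Pow P r => L (unitVec i)) h1
  have h3 : res ι hι (cfc f (sq (A.map (MonoidAlgebra.mapDomain ι))) (unitVec i)) =
      cfc f (sq A) (res ι hι (unitVec i)) := h2
  rw [res_unitVec] at h3
  rw [inner_unitVec, inner_unitVec, ← h3, coord_res, map_one]

/-- The Fuglede-Kadison determinant does not change under inclusions of groups. -/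
theorem fkDet_map (A : Matrix (Fin r) (Fin s) (MonoidAlgebra ℚ P)) (ι : P →* Q)
    (hι : Function.Injective ι) :
    fkDet (rMul (A.map (MonoidAlgebra.mapDomain ι))) = fkDet (rMul A) := by
  have h1 : specMeas (unitVec : Fin r → L2Pow Q r) (rMul (A.map (MonoidAlgebra.mapDomain ι))) =
      specMeas (unitVec : Fin r → L2Pow P r) (rMul A) := by
    unfold specMeas spectralMeasure
    congr 1
    have h2 : traceLinear (unitVec : Fin r → L2Pow Q r)
        (sq (A.map (MonoidAlgebra.mapDomain ι))) =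
        traceLinear (unitVec : Fin r → L2Pow P r) (sq A) := by
      ext f
      show traceVal _ _ _ = traceVal _ _ _
      unfold traceVal
      refine Finset.sum_congr rfl fun i _ => ?_
      rw [coeff_cfc ι hι A f f.continuous i]
    unfold sq at h2
    unfold traceFunctional
    congr 1
  unfold fkDet detOf
  rw [h1]

end

end Pool.Agent.Y692.FKI
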