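import Pool.Agent.Y692.FK.Ind
import Pool.Agent.Helper993.HeisDet
import Pool.Agent.Helper993.FKDef
import Pool.Agent.Helper993.FKFinite

/-!
# Property (FK-approx) and direct factors
-/

set_option autoImplicit false

open Pool.Agent.Helper993.FK Pool.Agent.Helper993.HeisDet Pool.Agent.Y692.FKI

namespace Pool.Agent.Y692.FKP

section
variable {K H : Type} [Group K] [Group H]

/-- the inclusion of quotients `H / N → (K × H) / (M × N)` -/
def incl (M : Subgroup K) [M.Normal] (N : Subgroup H) [N.Normal] :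
    H ⧸ N →* (K × H) ⧸ M.prod N :=
  QuotientGroup.map N (M.prod N) (MonoidHom.inr K H) (by
    intro h hh
    rw [Subgroup.mem_comap, Subgroup.mem_prod]
    exact ⟨M.one_mem, hh⟩)

theorem incl_mk (M : Subgroup K) [M.Normal] (N : Subgroup H) [N.Normal] (h : H) :
    incl M N (QuotientGroup.mk h) = QuotientGroup.mk ((1, h) : K × H) := rfl

theorem incl_injective (M : Subgroup K) [M.Normal] (N : Subgroup H) [N.Normal] :
    Function.Injective (incl M N) := by
  rw [injective_iff_map_eq_one]
  intro x hx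
  obtain ⟨h, rfl⟩ := QuotientGroup.mk_surjective x
  rw [incl_mk, QuotientGroup.eq_one_iff, Subgroup.mem_prod] at hx
  rw [QuotientGroup.eq_one_iff]
  exact hx.2

theorem mapDomain_mapDomain {A B C : Type} (f : A → B) (g : B → C) (a : MonoidAlgebra ℚ A) :
    MonoidAlgebra.mapDomain g (MonoidAlgebra.mapDomain f a) =
      MonoidAlgebra.mapDomain (g ∘ f) a := by
  induction a using MonoidAlgebra.induction_linear with
  | zero => simp only [MonoidAlgebra.mapDomain_zero]
  | add a b h1 h2 => simp only [MonoidAlgebra.mapDomain_add, h1, h2]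
  | single g c => simp only [MonoidAlgebra.mapDomain_single, Function.comp_apply]

/-- The determinants of a matrix over `ℚ[H]` over the quotients `(K × H) / (M × N)` and
`H / N` agree. -/
theorem fkDet_prod {r s : ℕ} (A : Matrix (Fin r) (Fin s) (MonoidAlgebra ℚ H))
    (M : Subgroup K) [M.Normal] (N : Subgroup H) [N.Normal] :
    fkDet (rMul ((A.map (MonoidAlgebra.mapDomain (MonoidHom.inr K H))).map
      (MonoidAlgebra.mapDomain (QuotientGroup.mk' (M.prod N))))) =
    fkDet (rMul (A.map (MonoidAlgebra.mapDomain (QuotientGroup.mk' N)))) := by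
  rw [← fkDet_map (A.map (MonoidAlgebra.mapDomain (QuotientGroup.mk' N))) (incl M N)
    (incl_injective M N)]
  congr 2
  ext1 i j
  simp only [Matrix.map_apply]
  rw [mapDomain_mapDomain, mapDomain_mapDomain]
  rfl

/-- chains of products -/
theorem chain_prod {M : ℕ → Subgroup K} {N : ℕ → Subgroup H} (hM0 : M 0 = ⊤) (hM : Antitone M)
    (hM1 : ⨅ i, M i = ⊥) (hN0 : N 0 = ⊤) (hN : Antitone N) (hN1 : ⨅ i, N i = ⊥) :
    (M 0).prod (N 0) = ⊤ ∧ Antitone (fun i => (M i).prod (N i)) ∧
      ⨅ i, (M i).prod (N i) = ⊥ := by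
  refine ⟨by rw [hM0, hN0, Subgroup.top_prod_top], fun i j hij => Subgroup.prod_mono (hM hij)
    (hN hij), ?_⟩
  rw [eq_bot_iff]
  rintro ⟨k, h⟩ hkh
  rw [Subgroup.mem_iInf] at hkh
  have h1 : k ∈ ⨅ i, M i := Subgroup.mem_iInf.2 fun i => (Subgroup.mem_prod.1 (hkh i)).1
  have h2 : h ∈ ⨅ i, N i := Subgroup.mem_iInf.2 fun i => (Subgroup.mem_prod.1 (hkh i)).2
  rw [hM1, Subgroup.mem_bot] at h1
  rw [hN1, Subgroup.mem_bot] at h2
  rw [Subgroup.mem_bot]
  exact Prod.ext h1 h2

/-- the chain `⊤, 1, 1, …` -/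
def triv (K : Type) [Group K] (i : ℕ) : Subgroup K := if i = 0 then ⊤ else ⊥

instance triv_normal (i : ℕ) : (triv K i).Normal := by
  unfold triv
  split_ifs <;> infer_instance

theorem triv_zero : triv K 0 = ⊤ := if_pos rfl

theorem triv_anti : Antitone (triv K) := by
  intro i j hij
  unfold triv
  by_cases hj : j = 0
  · have hi : i = 0 := by omega
    rw [if_pos hi]
    exact le_top
  · rw [if_neg hj]
    exact bot_le

theorem triv_inf : ⨅ i, triv K i = ⊥ := by
  rw [eq_bot_iff]
  exact iInf_le_of_le 1 (le_of_eq (if_neg one_ne_zero))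

/-- Property (FK-approx) passes to direct factors. -/
theorem FKApprox.factor (h : FKApprox (K × H)) : FKApprox H := by
  intro N _ hN0 hN hN1 r s hr hs A
  obtain ⟨c0, c1, c2⟩ := chain_prod (K := K) triv_zero triv_anti triv_inf hN0 hN hN1
  have h1 := h (fun i => (triv K i).prod (N i)) c0 c1 c2 r s hr hs
    (A.map (MonoidAlgebra.mapDomain (MonoidHom.inr K H)))
  have hinr : Function.Injective (MonoidHom.inr K H) := by
    intro a b hab
    exact (Prod.mk.inj hab).2
  rw [fkDet_map A (MonoidHom.inr K H) hinr] at h1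
  simpa only [fkDet_prod] using h1

end

end Pool.Agent.Y692.FKP
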