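import Mathlib
import Pool.Agent.Helper993.Tors

/-!
# A bound for the order of the torsion subgroup of the cokernel of an integer matrix
-/

set_option autoImplicit false

namespace Pool.Agent.Y692.FKT

open Pool.Agent.Helper993.Tors

/-- the determinant is at most the product of the row sums -/
theorem det_le {I : Type} [Fintype I] [DecidableEq I] (A : Matrix I I ℤ) (C : ℕ)
    (h : ∀ i, ∑ j, (A i j).natAbs ≤ C) : A.det.natAbs ≤ C ^ Fintype.card I := by
  rw [← Matrix.det_transpose, Matrix.det_apply']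
  calc (∑ σ : Equiv.Perm I, ((Equiv.Perm.sign σ : ℤ) * ∏ i, A.transpose (σ i) i)).natAbs
      ≤ ∑ σ : Equiv.Perm I, ((Equiv.Perm.sign σ : ℤ) * ∏ i, A.transpose (σ i) i).natAbs :=
        Int.natAbs_sum_le _ _
    _ = ∑ σ : Equiv.Perm I, ∏ i, (A i (σ i)).natAbs := by
        apply Finset.sum_congr rfl
        intro σ _
        rw [Int.natAbs_mul, Int.natAbs_of_isUnit (Units.isUnit _), one_mul]
        exact map_prod Int.natAbsHom _ _
    _ = ∑ f ∈ Finset.univ.image (fun σ : Equiv.Perm I => (σ : I → I)),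
          ∏ i, (A i (f i)).natAbs := by
        rw [Finset.sum_image]
        intro σ _ τ _ hst
        exact DFunLike.coe_injective hst
    _ ≤ ∑ f : I → I, ∏ i, (A i (f i)).natAbs :=
        Finset.sum_le_sum_of_subset (Finset.subset_univ _)
    _ = ∏ i, ∑ j, (A i j).natAbs := by
        rw [Finset.prod_univ_sum, Fintype.piFinset_univ]
    _ ≤ ∏ _i : I, C := Finset.prod_le_prod' fun i _ => h i
    _ = C ^ Fintype.card I := by rw [Finset.prod_const, Finset.card_univ]

theorem index_vecMul {I : Type} [Fintype I] [DecidableEq I] (A : Matrix I I ℤ) (hA : A.det ≠ 0) :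
    Nat.card ((I → ℤ) ⧸ LinearMap.range (Matrix.vecMulLinear A)) = A.det.natAbs := by
  have hinj : Function.Injective (Matrix.vecMulLinear A) := by
    rw [← LinearMap.ker_eq_bot, LinearMap.ker_eq_bot']
    intro v hv
    exact Matrix.eq_zero_of_vecMul_eq_zero hA hv
  rw [← Submodule.natAbs_det_equiv _ (LinearEquiv.ofInjective (Matrix.vecMulLinear A) hinj)]
  have h1 : (LinearMap.range (Matrix.vecMulLinear A)).subtype ∘ₗ
      AddMonoidHom.toIntLinearMap (LinearEquiv.ofInjective (Matrix.vecMulLinear A) hinj :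
        (I → ℤ) →+ _) = Matrix.toLin' A.transpose := by
    ext v
    simp
  rw [h1, LinearMap.det_toLin', Matrix.det_transpose]

/-- a maximal minor -/
theorem exists_minor {I J : Type} [Fintype I] [Fintype J] (A : Matrix I J ℤ) :
    ∃ (κ : Type) (_ : Fintype κ) (_ : DecidableEq κ) (a : κ → I) (b : κ → J),
      Function.Injective a ∧ Function.Injective b ∧ (A.submatrix a b).det ≠ 0 ∧
      ∀ w : I → ℤ, ∃ c : κ → ℚ,
        (fun j => ((Matrix.vecMul w A j : ℤ) : ℚ)) =
          fun j => ∑ k, c k * (A (a k) j : ℚ) := by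
  classical
  obtain ⟨κ, a, ha, hspan, hli⟩ := exists_linearIndependent' ℚ (fun i j => (A i j : ℚ) : I → J → ℚ)
  have : Fintype κ := Fintype.ofInjective a ha
  let B : Matrix κ J ℚ := Matrix.of fun k j => (A (a k) j : ℚ)
  have hB : B.rank = Fintype.card κ := LinearIndependent.rank_matrix (M := B) hli
  obtain ⟨κ', b, hb, hspan', hli'⟩ := exists_linearIndependent' ℚ (B.col)
  have : Fintype κ' := Fintype.ofInjective b hb
  have hcard : Fintype.card κ = Fintype.card κ' := by
    rw [← hB, Matrix.rank_eq_finrank_span_cols, ← hspan', finrank_span_eq_card hli']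
  let e : κ ≃ κ' := Fintype.equivOfCardEq hcard
  refine ⟨κ, inferInstance, inferInstance, a, b ∘ e, ha, hb.comp e.injective, ?_, ?_⟩
  · intro h0
    have h1 : LinearIndependent ℚ (B.submatrix id (b ∘ e)).col := hli'.comp e e.injective
    rw [Matrix.linearIndependent_cols_iff_isUnit, Matrix.isUnit_iff_isUnit_det,
      isUnit_iff_ne_zero] at h1
    apply h1
    have h2 : B.submatrix id (b ∘ e) = (A.submatrix a (b ∘ e)).map (Int.castRingHom ℚ) := by
      ext i j
      rfl
    rw [h2, ← RingHom.mapMatrix_apply, ← RingHom.map_det, h0, map_zero]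
  · intro w
    have h1 : (fun j => ((Matrix.vecMul w A j : ℤ) : ℚ)) ∈
        Submodule.span ℚ (Set.range (fun i j => (A i j : ℚ) : I → J → ℚ)) := by
      have h2 : (fun j => ((Matrix.vecMul w A j : ℤ) : ℚ)) =
          ∑ i, (w i : ℚ) • (fun j => (A i j : ℚ)) := by
        funext j
        rw [Finset.sum_apply, Matrix.vecMul, dotProduct]
        push_cast
        rfl
      rw [h2]
      exact Submodule.sum_mem _ fun i _ => Submodule.smul_mem _ _ (Submodule.subset_span ⟨i, rfl⟩)
    rw [← hspan, Submodule.mem_span_range_iff_exists_fun] at h1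
    obtain ⟨c, hc⟩ := h1
    refine ⟨c, ?_⟩
    rw [← hc]
    funext j
    rw [Finset.sum_apply]
    rfl

/-- the order of the torsion subgroup is at most the size of a maximal minor -/
theorem tO_le_det {I J : Type} [Fintype I] [Fintype J] (A : Matrix I J ℤ) {κ : Type} [Fintype κ]
    [DecidableEq κ] (a : κ → I) (b : κ → J) (hdet : (A.submatrix a b).det ≠ 0)
    (hA : ∀ w : I → ℤ, ∃ c : κ → ℚ, (fun j => ((Matrix.vecMul w A j : ℤ) : ℚ)) =
      fun j => ∑ k, c k * (A (a k) j : ℚ)) (Z : Submodule ℤ (J → ℤ)) :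
    tO Z (LinearMap.range (Matrix.vecMulLinear A)) ≤ (A.submatrix a b).det.natAbs := by
  classical
  set L := LinearMap.range (Matrix.vecMulLinear A) with hL
  set R := LinearMap.range (Matrix.vecMulLinear (A.submatrix a b)) with hR
  have hcard := index_vecMul (A.submatrix a b) hdet
  have hpos : 0 < (A.submatrix a b).det.natAbs := Int.natAbs_pos.2 hdet
  have hfin : Finite ((κ → ℤ) ⧸ R) := by
    apply Nat.finite_of_card_ne_zero
    rw [hcard]
    exact hpos.ne'
  -- the projection
  let φ : sat Z L →+ ((κ → ℤ) ⧸ R) :=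
    (Submodule.mkQ R).toAddMonoidHom.comp
      ((LinearMap.funLeft ℤ ℤ b).toAddMonoidHom.comp (sat Z L).subtype)
  have hφ : ∀ x : sat Z L, φ x = Submodule.Quotient.mk (fun k => (x : J → ℤ) (b k)) := fun x => rfl
  -- injectivity of the projection on the saturation
  have hinj : ∀ x : J → ℤ, (∃ n : ℤ, n ≠ 0 ∧ n • x ∈ L) → (∀ k, x (b k) = 0) → x = 0 := by
    rintro x ⟨n, hn, w, hw⟩ hx
    obtain ⟨c, hc⟩ := hA w
    have hw' : Matrix.vecMul w A = n • x := hw
    rw [hw'] at hc
    have hc0 : Matrix.vecMul c ((A.submatrix a b).map (Int.castRingHom ℚ)) = 0 := by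
      funext k
      have h1 := congrFun hc (b k)
      simp only [Pi.smul_apply, hx k, smul_zero, Int.cast_zero] at h1
      rw [Matrix.vecMul, dotProduct, Pi.zero_apply, h1]
      rfl
    have hd : ((A.submatrix a b).map (Int.castRingHom ℚ)).det ≠ 0 := by
      rw [← RingHom.mapMatrix_apply, ← RingHom.map_det]
      intro h
      apply hdet
      exact Int.cast_injective (α := ℚ) (by simpa using h)
    have hc1 : c = 0 := Matrix.eq_zero_of_vecMul_eq_zero hd hc0
    funext j
    have h2 := congrFun hc j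
    simp only [hc1, Pi.zero_apply, zero_mul, Finset.sum_const_zero, Pi.smul_apply] at h2
    have h3 : n • x j = 0 := by exact_mod_cast h2
    exact (smul_eq_zero.mp h3).resolve_left hn
  have hker : φ.ker ≤ L.toAddSubgroup.addSubgroupOf (sat Z L) := by
    intro x hx
    rw [AddMonoidHom.mem_ker, hφ, Submodule.Quotient.mk_eq_zero] at hx
    obtain ⟨v, hv⟩ := hx
    rw [AddSubgroup.mem_addSubgroupOf]
    change (x : J → ℤ) ∈ L
    -- the element of `L`
    let w : I → ℤ := fun i => ∑ k, if a k = i then v k else 0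
    have hw : ∀ j, Matrix.vecMul w A j = ∑ k, v k * A (a k) j := by
      intro j
      rw [Matrix.vecMul, dotProduct]
      simp only [w, Finset.sum_mul]
      rw [Finset.sum_comm]
      apply Finset.sum_congr rfl
      intro k _
      simp only [ite_mul, zero_mul]
      rw [Finset.sum_ite_eq Finset.univ (a k) (fun i => v k * A i j), if_pos (Finset.mem_univ _)]
    have hwL : Matrix.vecMul w A ∈ L := ⟨w, rfl⟩
    have hx2 : (x : J → ℤ) - Matrix.vecMul w A = 0 := by
      apply hinj
      · obtain ⟨n, hn, hnx⟩ := x.2.2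
        refine ⟨n, hn, ?_⟩
        rw [smul_sub]
        exact L.sub_mem hnx (L.smul_mem n hwL)
      · intro k
        have h1 := congrFun hv k
        rw [Pi.sub_apply, hw, ← h1, sub_eq_zero]
        rfl
    rw [sub_eq_zero] at hx2
    rw [hx2]
    exact hwL
  rw [tO_eq]
  have h1 : (L.toAddSubgroup.addSubgroupOf (sat Z L)).index ∣ φ.ker.index :=
    AddSubgroup.index_dvd_of_le hker
  have h2 : φ.ker.index = Nat.card φ.range := AddSubgroup.index_ker φ
  have h3 : Nat.card φ.range ≤ Nat.card ((κ → ℤ) ⧸ R) := Nat.card_le_card_of_injective _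
    (Subtype.val_injective)
  have h4 : 0 < Nat.card φ.range := Nat.card_pos
  have h5 : (L.toAddSubgroup.addSubgroupOf (sat Z L)).index ≤ φ.ker.index :=
    Nat.le_of_dvd (by rw [h2]; exact h4) h1
  unfold AddSubgroup.relIndex
  rw [← hcard]
  exact h5.trans (h2.le.trans h3)

/-- The torsion bound for matrices with bounded rows. -/
theorem tO_le {I J : Type} [Fintype I] [Fintype J] (A : Matrix I J ℤ) (C : ℕ) (hC : 1 ≤ C)
    (h : ∀ i, ∑ j, (A i j).natAbs ≤ C) (Z : Submodule ℤ (J → ℤ)) :
    tO Z (LinearMap.range (Matrix.vecMulLinear A)) ≤ C ^ Fintype.card I := by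
  obtain ⟨κ, _, _, a, b, ha, hb, hdet, hA⟩ := exists_minor A
  refine (tO_le_det A a b hdet hA Z).trans ((det_le _ C ?_).trans ?_)
  · intro k
    calc ∑ j, ((A.submatrix a b) k j).natAbs = ∑ j, (fun j => (A (a k) j).natAbs) (b j) := rfl
      _ ≤ ∑ j, (A (a k) j).natAbs := by
        classical
        rw [← Finset.sum_image (s := Finset.univ) (g := b)
          (f := fun j => (A (a k) j).natAbs) (fun x _ y _ hxy => hb hxy)]
        exact Finset.sum_le_sum_of_subset (Finset.subset_univ _)
      _ ≤ C := h _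
  · exact Nat.pow_le_pow_right hC (Fintype.card_le_of_injective a ha)

/-- The torsion bound for maps of free modules with finite bases. -/
theorem tO_le_finsupp {P Q : Type} [Fintype P] [Fintype Q] (f : (P →₀ ℤ) →ₗ[ℤ] (Q →₀ ℤ)) (C : ℕ)
    (hC : 1 ≤ C) (h : ∀ p, ∑ q, (f (Finsupp.single p 1) q).natAbs ≤ C)
    (Z : Submodule ℤ (Q →₀ ℤ)) :
    tO Z (LinearMap.range f) ≤ C ^ Fintype.card P := by
  classical
  let e := Finsupp.linearEquivFunOnFinite ℤ ℤ Q
  let e' := Finsupp.linearEquivFunOnFinite ℤ ℤ P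
  let A : Matrix P Q ℤ := Matrix.of fun p q => f (Finsupp.single p 1) q
  have h1 : e.toLinearMap ∘ₗ f = Matrix.vecMulLinear A ∘ₗ e'.toLinearMap := by
    apply Finsupp.lhom_ext'
    intro p
    apply LinearMap.ext_ring
    funext q
    change f (Finsupp.single p 1) q = Matrix.vecMul (e' (Finsupp.single p 1)) A q
    have h2 : e' (Finsupp.single p 1) = Pi.single p 1 := by
      funext x
      exact congrFun (Finsupp.single_eq_pi_single p 1) x
    rw [h2, Matrix.single_one_vecMul]
    rfl
  have h3 : (LinearMap.range f).map e.toLinearMap = LinearMap.range (Matrix.vecMulLinear A) := by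
    rw [← LinearMap.range_comp, h1, LinearMap.range_comp, LinearEquiv.range, Submodule.map_top]
  rw [← tO_map e, h3]
  exact tO_le A C hC h _

end Pool.Agent.Y692.FKT
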