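import Pool.Agent.Y692.FK.Cmp
import Pool.Agent.Y692.FK.Tb

/-!
# Continuum many limits of the normalised torsion sums of one complex
-/

open scoped Topology
open Filter

noncomputable section

namespace Pool.Agent.Y692.FKC

open Pool.Agent.Helper993.HeisDet Pool.Agent.Helper993.Delta
  Pool.Agent.Helper993.LT Pool.Agent.Helper993.Tors Pool.Agent.Y226.FK Pool.Agent.Y692.FKT
open Pool.Agent.Helper993.Cpx (cpx phi acyclic)

/-- rows of the boundary map -/
theorem boundary_row (K : DeltaSet) (n : ℕ) [Fintype (K.simplex n)] (p : K.simplex (n + 1)) :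
    ∑ q, (K.boundary n (Finsupp.single p 1) q).natAbs ≤ n + 2 := by
  classical
  have h1 : K.boundary n (Finsupp.single p 1)
      = ∑ i : Fin (n + 2), ((-1 : ℤ) ^ (i : ℕ)) • Finsupp.single (K.face n i p) 1 := by
    unfold DeltaSet.boundary
    rw [LinearMap.sum_apply]
    apply Finset.sum_congr rfl
    intro i _
    rw [LinearMap.smul_apply]
    congr 1
    exact Finsupp.mapDomain_single
  have h2 : ∀ q, (K.boundary n (Finsupp.single p 1) q).natAbs
      ≤ ∑ i : Fin (n + 2), if K.face n i p = q then 1 else 0 := by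
    intro q
    rw [h1, Finsupp.finsetSum_apply]
    refine (Int.natAbs_sum_le _ _).trans (Finset.sum_le_sum fun i _ => ?_)
    rw [Finsupp.smul_apply, Finsupp.single_apply, smul_eq_mul, Int.natAbs_mul, Int.natAbs_pow]
    split_ifs <;> simp
  calc ∑ q, (K.boundary n (Finsupp.single p 1) q).natAbs
      ≤ ∑ q, ∑ i : Fin (n + 2), (if K.face n i p = q then 1 else 0) :=
        Finset.sum_le_sum fun q _ => h2 q
    _ = ∑ i : Fin (n + 2), ∑ q, (if K.face n i p = q then 1 else 0) := Finset.sum_comm
    _ = n + 2 := by simp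

theorem torsionOrder_le (K : DeltaSet) (n : ℕ) [Fintype (K.simplex n)]
    [Fintype (K.simplex (n + 1))] :
    K.torsionOrder n ≤ (n + 2) ^ Fintype.card (K.simplex (n + 1)) :=
  tO_le_finsupp (K.boundary n) (n + 2) (by omega) (fun p => boundary_row K n p) (K.cycles n)

/-- The normalised torsion sums of the finite covers of one complex are bounded. -/
theorem torsionSum_bound (X : OneVertex) (N : Subgroup X.pi1) [N.Normal] [N.FiniteIndex] :
    |X.torsionSum N| ≤ ∑ n ∈ Finset.range (X.dim + 1), (X.num (n + 1) : ℝ) * Real.log (n + 2) := by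
  classical
  unfold OneVertex.torsionSum
  refine (Finset.abs_sum_le_sum_abs _ _).trans (Finset.sum_le_sum fun n _ => ?_)
  have hfin : Finite (X.pi1 ⧸ N) := inferInstance
  have : Fintype (X.pi1 ⧸ N) := Fintype.ofFinite _
  have i1 : ∀ m, Fintype ((X.cover N).simplex m) := fun m =>
    inferInstanceAs (Fintype ((X.pi1 ⧸ N) × Fin (X.num m)))
  have hidx : 0 < N.index := Nat.pos_of_ne_zero Subgroup.FiniteIndex.index_ne_zero
  have hidxR : (0 : ℝ) < N.index := by exact_mod_cast hidx
  have h1 := torsionOrder_le (X.cover N) n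
  have h2 : Fintype.card ((X.cover N).simplex (n + 1)) = N.index * X.num (n + 1) := by
    have : Nat.card ((X.cover N).simplex (n + 1)) = N.index * X.num (n + 1) := by
      change Nat.card ((X.pi1 ⧸ N) × Fin (X.num (n + 1))) = _
      rw [Nat.card_prod, Subgroup.index_eq_card, Nat.card_eq_fintype_card (α := Fin _),
        Fintype.card_fin]
    rw [← this, Nat.card_eq_fintype_card]
  rw [h2] at h1
  have h3 : 0 ≤ Real.log ((X.cover N).torsionOrder n) := Real.log_natCast_nonneg _
  have hl : 0 ≤ Real.log ((n : ℝ) + 2) := Real.log_nonneg (by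
    have : (0 : ℝ) ≤ n := Nat.cast_nonneg n
    linarith)
  have h4 : Real.log ((X.cover N).torsionOrder n)
      ≤ N.index * ((X.num (n + 1) : ℝ) * Real.log (n + 2)) := by
    rcases Nat.eq_zero_or_pos ((X.cover N).torsionOrder n) with h | h
    · rw [h, Nat.cast_zero, Real.log_zero]
      positivity
    · have h5 : (((X.cover N).torsionOrder n : ℕ) : ℝ)
          ≤ ((n : ℝ) + 2) ^ (N.index * X.num (n + 1)) := by exact_mod_cast h1
      have h6 := Real.log_le_log (by exact_mod_cast h) h5
      rw [Real.log_pow] at h6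
      push_cast at h6
      rw [← mul_assoc]
      exact h6
  rw [abs_mul, abs_pow, abs_neg, abs_one, one_pow, one_mul, abs_of_nonneg (by positivity),
    div_le_iff₀ hidxR, mul_comm _ (N.index : ℝ)]
  exact h4

/-- a subsequence of a chain -/
def sub {Γ : Type} [Group Γ] (C : NormalChain Γ) (ψ : ℕ → ℕ) (h0 : ψ 0 = 0)
    (h : StrictMono ψ) : NormalChain Γ where
  sub k := C.sub (ψ k)
  normal k := C.normal _
  finiteIndex k := C.finiteIndex _
  zero := by rw [h0, C.zero]
  strictAnti := fun _ _ hij => C.strictAnti (h hij)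
  iInf_eq_bot := by
    rw [eq_bot_iff, ← C.iInf_eq_bot]
    exact le_iInf fun k => (iInf_le _ k).trans (C.strictAnti.antitone h.le_apply)

/-- every number in `(0, log 10]` is the limit of the normalised logarithms of the determinants -/
theorem exists_sq {c : ℝ} (h0 : 0 < c) (h1 : c ≤ Real.log 10) :
    ∃ s : Sq, Tendsto (fun k => Real.log ‖DD s k‖ / (Nat.card (Heis ℤ ⧸ ch s k) : ℝ)) atTop
      (𝓝 c) := by
  have hlog : 0 < Real.log 10 := Real.log_pos (by norm_num)
  set P : ℝ := 1 - c / Real.log 10 with hP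
  have hP0 : 0 ≤ P := by
    rw [hP, sub_nonneg, div_le_one hlog]
    exact h1
  have hP1 : P < 1 := by
    have : 0 < c / Real.log 10 := div_pos h0 hlog
    rw [hP]; linarith
  obtain ⟨k, hk0, hpos, hodd, hdvd, h3, hcard, hmono, hlim⟩ := exists_seq P hP0 hP1
  let s : Sq := ⟨k, hk0, hpos, hodd, hdvd, hmono⟩
  refine ⟨s, ?_⟩
  have h4 := tendsto_log_D hodd h3 hcard hlim (N := 10) (by norm_num)
  have h5 : (1 - P) * Real.log ((10 : ℕ) : ℝ) = c := by
    rw [hP]
    push_cast
    field_simp
    ring
  rw [h5] at h4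
  refine h4.congr fun i => ?_
  rw [ch_card]
  unfold DD
  congr 1
  push_cast
  change ((k i : ℕ) : ℝ) ^ 3 = (k i : ℝ) * ((k i : ℝ) * (k i : ℝ))
  ring

/-- the limits of the torsion sums of one complex -/
def lims (X : OneVertex) : Set ℝ :=
  {L | ∃ C : NormalChain X.pi1, Tendsto (fun k => X.torsionSum (C.sub k)) atTop (𝓝 L)}

theorem exists_two {c : ℝ} (h0 : 0 < c) (h1 : c ≤ Real.log 10) :
    ∃ a ∈ lims (cpx true), ∃ b ∈ lims (cpx false), a - b = c := by
  obtain ⟨s, hs⟩ := exists_sq h0 h1
  set T : ℕ → ℝ := fun k => (cpx false).torsionSum (NN false s k) with hT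
  set B : ℝ := ∑ n ∈ Finset.range ((cpx false).dim + 1),
    ((cpx false).num (n + 1) : ℝ) * Real.log (n + 2) with hB
  have hTB : ∀ k, T k ∈ Set.Icc (-B) B := by
    intro k
    have : (NN false s k).FiniteIndex := (pull (phi false) s).finiteIndex k
    exact abs_le.1 (torsionSum_bound (cpx false) (NN false s k))
  obtain ⟨b, _, φ, hφ, hlim⟩ := isCompact_Icc.tendsto_subseq hTB
  let ψ : ℕ → ℕ := fun i => if i = 0 then 0 else φ i
  have hψ0 : ψ 0 = 0 := if_pos rfl
  have hψ : StrictMono ψ := by
    intro i j hij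
    have hj : j ≠ 0 := by omega
    change (if i = 0 then 0 else φ i) < (if j = 0 then 0 else φ j)
    rw [if_neg hj]
    by_cases hi : i = 0
    · rw [if_pos hi]
      have := hφ.le_apply (x := j)
      omega
    · rw [if_neg hi]
      exact hφ hij
  have hev : ∀ᶠ i in atTop, φ i = ψ i := by
    filter_upwards [eventually_ge_atTop 1] with i hi
    exact (if_neg (by omega)).symm
  have hlim2 : Tendsto (fun i => T (ψ i)) atTop (𝓝 b) :=
    hlim.congr' (hev.mono fun i hi => by simp only [Function.comp_apply, hi])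
  have hlim3 : Tendsto (fun i => (cpx true).torsionSum (NN true s (ψ i))) atTop (𝓝 (b + c)) := by
    refine (hlim2.add (hs.comp hψ.tendsto_atTop)).congr fun i => ?_
    have := torsionSum_diff s (ψ i)
    simp only [Function.comp_apply, hT]
    linarith
  exact ⟨b + c, ⟨sub (pull (phi true) s) ψ hψ0 hψ, hlim3⟩, b,
    ⟨sub (pull (phi false) s) ψ hψ0 hψ, hlim2⟩, by ring⟩

/-- One of the two complexes has continuum many limits. -/
theorem exists_continuum : ∃ b : Bool, Cardinal.mk (lims (cpx b)) = Cardinal.continuum := by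
  by_contra hcon
  push Not at hcon
  have hlt : ∀ b, Cardinal.mk (lims (cpx b)) < Cardinal.continuum := fun b =>
    lt_of_le_of_ne ((Cardinal.mk_set_le _).trans Cardinal.mk_real.le) (hcon b)
  have h1 : Set.Ioc 0 (Real.log 10) ⊆
      Set.range fun p : lims (cpx true) × lims (cpx false) => (p.1 : ℝ) - (p.2 : ℝ) := by
    rintro c ⟨h0, h1⟩
    obtain ⟨a, ha, b, hb, hab⟩ := exists_two h0 h1
    exact ⟨(⟨a, ha⟩, ⟨b, hb⟩), hab⟩
  have h2 : Cardinal.mk (Set.Ioc 0 (Real.log 10)) = Cardinal.continuum :=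
    Cardinal.mk_Ioc_real (Real.log_pos (by norm_num))
  have h3 : Cardinal.continuum ≤ Cardinal.mk (lims (cpx true)) * Cardinal.mk (lims (cpx false)) := by
    rw [← h2, Cardinal.mul_def]
    exact (Cardinal.mk_le_mk_of_subset h1).trans Cardinal.mk_range_le
  exact absurd (Cardinal.mul_lt_of_lt Cardinal.aleph0_le_continuum (hlt true) (hlt false))
    (not_lt.2 h3)

end Pool.Agent.Y692.FKC
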